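import Mathlib
import Pool.Agent.L5helper68.DH.Defs

/-!
# PL homeomorphisms between disjoint unions of two connected sets
-/

namespace Pool.Agent.L5helper68.DH

open Set

/-- the statement of `plHomeo_restrict` -/
def St_restrict : Prop := ∀ {A B C D : Set (ℕ → ℝ)}, IsClosed A → IsClosed B → IsClosed C →
    IsClosed D → Disjoint A B → Disjoint C D →
    ∀ (f : (A ∪ B : Set (ℕ → ℝ)) ≃ₜ (C ∪ D : Set (ℕ → ℝ))), IsPL f → IsPL f.symm →
    (∀ x : (A ∪ B : Set (ℕ → ℝ)), (x : ℕ → ℝ) ∈ A ↔ (f x : ℕ → ℝ) ∈ C) → PLHomeo A C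

theorem parts_restrict (H : St_restrict) {P Q A B C D : Set (ℕ → ℝ)} (hP : P = A ∪ B)
    (hQ : Q = C ∪ D) (hA : IsClosed A) (hB : IsClosed B) (hC : IsClosed C) (hD : IsClosed D)
    (hAB : Disjoint A B) (hCD : Disjoint C D) (f : P ≃ₜ Q) (h1 : IsPL f) (h2 : IsPL f.symm)
    (h : ∀ x : P, (x : ℕ → ℝ) ∈ A ↔ (f x : ℕ → ℝ) ∈ C) : PLHomeo A C := by
  subst hP hQ
  exact H hA hB hC hD hAB hCD f h1 h2 h

theorem parts_conn {A C D : Set (ℕ → ℝ)} (hC : IsClosed C) (hD : IsClosed D)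
    (hCD : Disjoint C D) (cA : IsConnected A) (g : A → (ℕ → ℝ)) (hg : Continuous g)
    (h : ∀ x, g x ∈ C ∪ D) : (∀ x, g x ∈ C) ∨ (∀ x, g x ∈ D) := by
  have : PreconnectedSpace A := isPreconnected_iff_preconnectedSpace.mp cA.isPreconnected
  have h1 : IsPreconnected (range g) := isPreconnected_range hg
  rw [isPreconnected_iff_subset_of_disjoint_closed] at h1
  rcases h1 C D hC hD (by rintro _ ⟨x, rfl⟩; exact h x)
    (by rw [hCD.inter_eq, inter_empty]) with h2 | h2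
  · exact Or.inl fun x => h2 ⟨x, rfl⟩
  · exact Or.inr fun x => h2 ⟨x, rfl⟩

/-- J5 from J4 -/
theorem plHomeo_parts_of (H : St_restrict) {A B C D : Set (ℕ → ℝ)} (hA : IsClosed A)
    (hB : IsClosed B) (hC : IsClosed C) (hD : IsClosed D) (hAB : Disjoint A B)
    (hCD : Disjoint C D) (cA : IsConnected A) (cB : IsConnected B) (cC : IsConnected C)
    (cD : IsConnected D) (h : PLHomeo (A ∪ B) (C ∪ D)) :
    (PLHomeo A C ∧ PLHomeo B D) ∨ (PLHomeo A D ∧ PLHomeo B C) := by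
  obtain ⟨e, h1, h2⟩ := h
  have gA : Continuous fun x : A => (e ⟨x, Or.inl x.2⟩ : ℕ → ℝ) :=
    continuous_subtype_val.comp (e.continuous.comp (by fun_prop))
  have gB : Continuous fun x : B => (e ⟨x, Or.inr x.2⟩ : ℕ → ℝ) :=
    continuous_subtype_val.comp (e.continuous.comp (by fun_prop))
  have nCD : ∀ x, x ∈ C → x ∈ D → False := fun x hx hx' => Set.disjoint_left.mp hCD hx hx'
  rcases parts_conn hC hD hCD cA _ gA fun x => (e _).2 with a | a <;>
    rcases parts_conn hC hD hCD cB _ gB fun x => (e _).2 with b | b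
  · exfalso
    obtain ⟨y, hy⟩ := cD.nonempty
    obtain ⟨⟨x, hx⟩, hxy⟩ := e.surjective ⟨y, Or.inr hy⟩
    have h3 : (e ⟨x, hx⟩ : ℕ → ℝ) = y := by rw [hxy]
    rcases hx with hx | hx
    · exact nCD y (h3 ▸ a ⟨x, hx⟩) hy
    · exact nCD y (h3 ▸ b ⟨x, hx⟩) hy
  · refine Or.inl ⟨parts_restrict H rfl rfl hA hB hC hD hAB hCD e h1 h2 ?_,
      parts_restrict H (union_comm A B) (union_comm C D) hB hA hD hC hAB.symm hCD.symm e h1 h2 ?_⟩
    · rintro ⟨x, hx⟩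
      refine ⟨fun h => a ⟨x, h⟩, fun h => ?_⟩
      rcases hx with hx | hx
      · exact hx
      · exact (nCD _ h (b ⟨x, hx⟩)).elim
    · rintro ⟨x, hx⟩
      refine ⟨fun h => b ⟨x, h⟩, fun h => ?_⟩
      rcases hx with hx | hx
      · exact (nCD _ (a ⟨x, hx⟩) h).elim
      · exact hx
  · refine Or.inr ⟨parts_restrict H rfl (union_comm C D) hA hB hD hC hAB hCD.symm e h1 h2 ?_,
      parts_restrict H (union_comm A B) rfl hB hA hC hD hAB.symm hCD e h1 h2 ?_⟩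
    · rintro ⟨x, hx⟩
      refine ⟨fun h => a ⟨x, h⟩, fun h => ?_⟩
      rcases hx with hx | hx
      · exact hx
      · exact (nCD _ (b ⟨x, hx⟩) h).elim
    · rintro ⟨x, hx⟩
      refine ⟨fun h => b ⟨x, h⟩, fun h => ?_⟩
      rcases hx with hx | hx
      · exact (nCD _ h (a ⟨x, hx⟩)).elim
      · exact hx
  · exfalso
    obtain ⟨y, hy⟩ := cC.nonempty
    obtain ⟨⟨x, hx⟩, hxy⟩ := e.surjective ⟨y, Or.inl hy⟩
    have h3 : (e ⟨x, hx⟩ : ℕ → ℝ) = y := by rw [hxy]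
    rcases hx with hx | hx
    · exact nCD y hy (h3 ▸ a ⟨x, hx⟩)
    · exact nCD y hy (h3 ▸ b ⟨x, hx⟩)

end Pool.Agent.L5helper68.DH
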